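import Pool.Agent.R117.MSR.Upper

/-!
The Bose construction, and vectors in dimension nine with the sign conditions.
-/

set_option autoImplicit false

namespace Pool.Agent.R117.MSR

section Tau

variable {X : Type} [Fintype X] [DecidableEq X]

/-- the triples closed under `τ` -/
def tauBlocks (τ : X → X → X) : Finset (Finset X) :=
  Finset.univ.filter fun b => b.card = 3 ∧ ∀ x ∈ b, ∀ y ∈ b, x ≠ y → τ x y ∈ b

theorem tau_isSTS {τ : X → X → X} (h1 : ∀ x y, x ≠ y → τ x y ≠ x) (h2 : ∀ x y, x ≠ y → τ x y ≠ y)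
    (h3 : ∀ x y, x ≠ y → τ x y = τ y x) (h4 : ∀ x y, x ≠ y → τ x (τ x y) = y) :
    IsSTS (tauBlocks τ) := by
  have hcard : ∀ x y, x ≠ y → ({x, y, τ x y} : Finset X).card = 3 := fun x y hxy =>
    Finset.card_eq_three.2 ⟨x, y, τ x y, hxy, (h1 x y hxy).symm, (h2 x y hxy).symm, rfl⟩
  have h5 : ∀ x y, x ≠ y → τ y (τ x y) = x := fun x y hxy => by
    rw [h3 x y hxy]; exact h4 y x hxy.symm
  refine ⟨fun b hb => (Finset.mem_filter.1 hb).2.1, ?_⟩
  intro x y hxy
  refine ⟨{x, y, τ x y}, ⟨?_, by simp, by simp⟩, ?_⟩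
  · rw [tauBlocks, Finset.mem_filter]
    refine ⟨Finset.mem_univ _, hcard x y hxy, ?_⟩
    intro p hp q hq hpq
    simp only [Finset.mem_insert, Finset.mem_singleton] at hp hq
    rcases hp with rfl | rfl | rfl <;> rcases hq with rfl | rfl | rfl
    · exact absurd rfl hpq
    · simp
    · rw [h4 _ _ hxy]; simp
    · rw [← h3 _ _ hxy]; simp
    · exact absurd rfl hpq
    · rw [h5 _ _ hxy]; simp
    · rw [h3 _ _ hpq, h4 _ _ hxy]; simp
    · rw [h3 _ _ hpq, h5 _ _ hxy]; simp
    · exact absurd rfl hpq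
  · rintro b ⟨hb, hx, hy⟩
    obtain ⟨-, hb3, hcl⟩ := Finset.mem_filter.1 hb
    symm
    refine Finset.eq_of_subset_of_card_le ?_ ?_
    · intro w hw
      simp only [Finset.mem_insert, Finset.mem_singleton] at hw
      rcases hw with rfl | rfl | rfl
      · exact hx
      · exact hy
      · exact hcl x hx y hy hxy
    · rw [hb3]
      exact (hcard x y hxy).ge

theorem tau_negOn {κ : Type} [Fintype κ] {τ : X → X → X} {u : X → κ → ℝ}
    (h1 : ∀ x y, x ≠ y → τ x y ≠ x) (h2 : ∀ x y, x ≠ y → τ x y ≠ y)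
    (h : ∀ x y, x ≠ y → (∑ k, u x k * u y k) * (∑ k, u y k * u (τ x y) k) *
      (∑ k, u x k * u (τ x y) k) < 0) : NegOn (tauBlocks τ) u := by
  intro b hb x y z hx hy hz hxy hyz hxz
  obtain ⟨-, hb3, hcl⟩ := Finset.mem_filter.1 hb
  have h3 : ({x, y, z} : Finset X) = b := by
    refine Finset.eq_of_subset_of_card_le ?_ ?_
    · intro w hw
      simp only [Finset.mem_insert, Finset.mem_singleton] at hw
      rcases hw with rfl | rfl | rfl
      · exact hx
      · exact hy
      · exact hz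
    · rw [hb3, Finset.card_eq_three.2 ⟨x, y, z, hxy, hxz, hyz, rfl⟩]
  have h4 := hcl x hx y hy hxy
  rw [← h3] at h4
  simp only [Finset.mem_insert, Finset.mem_singleton] at h4
  have h5 : τ x y = z := by
    rcases h4 with h4 | h4 | h4
    · exact absurd h4 (h1 x y hxy)
    · exact absurd h4 (h2 x y hxy)
    · exact h4
  rw [← h5]
  exact h x y hxy

end Tau

section Bose

set_option linter.unusedSectionVars false

variable {m : ℕ} [NeZero m]

/-- the third point of the Bose system, `h` is one half -/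
def bose (h : ZMod m) (p q : ZMod m × Fin 3) : ZMod m × Fin 3 :=
  if p.2 = q.2 then ((p.1 + q.1) * h, p.2 + 1)
  else if q.2 = p.2 + 1 then (if p.1 = q.1 then (p.1, p.2 + 2) else (2 * q.1 - p.1, p.2))
  else (if p.1 = q.1 then (p.1, q.2 + 2) else (2 * p.1 - q.1, q.2))

theorem half_ne {h : ZMod m} (hh : 2 * h = 1) {x y : ZMod m} (hxy : x ≠ y) : x ≠ (x + y) * h := by
  intro h1
  apply hxy
  have h2 : 2 * x = (x + y) * (2 * h) := by
    calc 2 * x = 2 * ((x + y) * h) := by rw [← h1]
      _ = _ := by ring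
  rw [hh, mul_one, two_mul] at h2
  exact add_left_cancel h2

theorem bose_eqs {h : ZMod m} (hh : 2 * h = 1) (x y : ZMod m) :
    2 * ((x + y) * h) - x = y ∧ (x + (2 * y - x)) * h = y := by
  constructor
  · have : 2 * ((x + y) * h) = (x + y) * (2 * h) := by ring
    rw [this, hh]; ring
  · have : (x + (2 * y - x)) * h = y * (2 * h) := by ring
    rw [this, hh, mul_one]

theorem half_ne2 {h : ZMod m} (hh : 2 * h = 1) {x y : ZMod m} (hxy : x ≠ y) : x ≠ 2 * y - x := by
  intro h1
  apply hxy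
  have h2 : 2 * x = 2 * y := by linear_combination h1
  have h3 : (2 * h) * x = (2 * h) * y := by linear_combination h * h2
  rwa [hh, one_mul, one_mul] at h3

theorem bose_ne_left {h : ZMod m} (hh : 2 * h = 1) : ∀ p q : ZMod m × Fin 3, p ≠ q →
    bose h p q ≠ p := by
  rintro ⟨x, i⟩ ⟨y, j⟩ hne
  unfold bose
  by_cases hxy : x = y
  · subst hxy
    fin_cases i <;> fin_cases j <;> simp_all [Prod.ext_iff]
  · have := half_ne2 hh hxy
    fin_cases i <;> fin_cases j <;> simp_all [Prod.ext_iff, eq_comm]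

theorem bose_ne_right {h : ZMod m} (hh : 2 * h = 1) : ∀ p q : ZMod m × Fin 3, p ≠ q →
    bose h p q ≠ q := by
  rintro ⟨x, i⟩ ⟨y, j⟩ hne
  unfold bose
  by_cases hxy : x = y
  · subst hxy
    fin_cases i <;> fin_cases j <;> simp_all [Prod.ext_iff]
  · have := half_ne2 hh (Ne.symm hxy)
    fin_cases i <;> fin_cases j <;> simp_all [Prod.ext_iff, eq_comm]

theorem bose_isSTS {h : ZMod m} (hh : 2 * h = 1) : IsSTS (tauBlocks (bose h)) := by
  have hne3 : ∀ {x y : ZMod m}, x ≠ y → x ≠ 2 * x - y := by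
    intro x y hxy h1
    apply hxy
    linear_combination -h1
  refine tau_isSTS (bose_ne_left hh) (bose_ne_right hh) ?_ ?_
  · rintro ⟨x, i⟩ ⟨y, j⟩ hne
    unfold bose
    by_cases hxy : x = y
    · subst hxy
      fin_cases i <;> fin_cases j <;> simp_all [Prod.ext_iff]
    · have hyx : ¬ y = x := fun h => hxy h.symm
      fin_cases i <;> fin_cases j <;> simp_all [Prod.ext_iff, add_comm]
  · rintro ⟨x, i⟩ ⟨y, j⟩ hne
    unfold bose
    by_cases hxy : x = y
    · subst hxy
      fin_cases i <;> fin_cases j <;> simp_all [Prod.ext_iff]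
    · have h1 := half_ne hh hxy
      have h2 := (bose_eqs hh x y).1
      have h3 := (bose_eqs hh x y).2
      have h4 := hne3 hxy
      fin_cases i <;> fin_cases j <;> simp_all [Prod.ext_iff]

end Bose

end Pool.Agent.R117.MSR
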