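import Mathlib

/-!
Steiner triple systems, their incidence graphs, and the minimum semidefinite rank of a graph.
-/

set_option autoImplicit false

namespace Pool.Agent.R117.MSR

open Matrix
open scoped ComplexOrder

/-- `B` is the set of blocks of a Steiner triple system on the point set `X`. -/
def IsSTS {X : Type} [DecidableEq X] (B : Finset (Finset X)) : Prop :=
  (∀ b ∈ B, b.card = 3) ∧ ∀ x y : X, x ≠ y → ∃! b, b ∈ B ∧ x ∈ b ∧ y ∈ b

/-- The incidence graph: the vertices are the points and the blocks, a point is adjacent to the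
blocks containing it. -/
def incidenceGraph {X : Type} [DecidableEq X] (B : Finset (Finset X)) :
    SimpleGraph (X ⊕ {b // b ∈ B}) where
  Adj p q := match p, q with
    | Sum.inl x, Sum.inr b => x ∈ b.1
    | Sum.inr b, Sum.inl x => x ∈ b.1
    | _, _ => False
  symm := ⟨by
    intro p q h
    match p, q with
    | Sum.inl x, Sum.inr b => exact h
    | Sum.inr b, Sum.inl x => exact h
    | Sum.inl x, Sum.inl y => exact h
    | Sum.inr b, Sum.inr c => exact h⟩
  loopless := ⟨by
    intro p h
    match p with
    | Sum.inl x => exact h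
    | Sum.inr b => exact h⟩

/-- The minimum semidefinite rank of a graph: the least rank of a complex Hermitian positive
semidefinite matrix whose entries outside the diagonal are nonzero exactly at the edges. -/
noncomputable def msr {V : Type} [Fintype V] (G : SimpleGraph V) : ℕ :=
  sInf {r : ℕ | ∃ A : Matrix V V ℂ, A.PosSemidef ∧
    (∀ i j, i ≠ j → (A i j ≠ 0 ↔ G.Adj i j)) ∧ A.rank = r}

/-- Two systems of blocks on the same point set are isomorphic: some permutation of the points maps
the blocks of the first onto those of the second. -/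
def Isomorphic {X : Type} [DecidableEq X] (B C : Finset (Finset X)) : Prop :=
  ∃ σ : Equiv.Perm X, C = B.image (fun b => b.image σ)

/-- every graph has a matrix as in the definition of `msr` -/
theorem msr_nonempty {V : Type} [Fintype V] (G : SimpleGraph V) :
    {r : ℕ | ∃ A : Matrix V V ℂ, A.PosSemidef ∧
      (∀ i j, i ≠ j → (A i j ≠ 0 ↔ G.Adj i j)) ∧ A.rank = r}.Nonempty := by
  classical
  let W : Matrix V (V × V) ℂ :=
    fun a p => if G.Adj p.1 p.2 ∧ (a = p.1 ∨ a = p.2) then 1 else 0
  refine ⟨(W * Wᴴ).rank, W * Wᴴ, posSemidef_self_mul_conjTranspose W, ?_, rfl⟩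
  intro i j hij
  have h1 : (W * Wᴴ) i j = ∑ p : V × V, (if G.Adj p.1 p.2 ∧ ((i = p.1 ∧ j = p.2) ∨
      (i = p.2 ∧ j = p.1)) then (1 : ℂ) else 0) := by
    rw [Matrix.mul_apply]
    refine Finset.sum_congr rfl fun p _ => ?_
    rw [conjTranspose_apply]
    show (if G.Adj p.1 p.2 ∧ (i = p.1 ∨ i = p.2) then (1 : ℂ) else 0) *
      star (if G.Adj p.1 p.2 ∧ (j = p.1 ∨ j = p.2) then (1 : ℂ) else 0) = _
    by_cases h : G.Adj p.1 p.2
    · by_cases h1 : i = p.1
      · by_cases h2 : j = p.2
        · simp [h, h1, h2]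
        · have h3 : j ≠ p.1 := fun h3 => hij (h1.trans h3.symm)
          simp [h, h2, h3]
      · by_cases h2 : i = p.2
        · have h3 : j ≠ p.2 := fun h3 => hij (h2.trans h3.symm)
          by_cases h4 : j = p.1
          · have h5 : p.2 ≠ p.1 := by
              rw [← h2]
              exact h1
            simp [h, h2, h4]
          · simp [h, h1, h3, h4]
        · simp [h1, h2]
    · simp [h]
  rw [h1]
  by_cases hG : G.Adj i j
  · simp only [hG, iff_true]
    have h2 : ∀ p : V × V, (if G.Adj p.1 p.2 ∧ ((i = p.1 ∧ j = p.2) ∨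
      (i = p.2 ∧ j = p.1)) then (1 : ℂ) else 0) = ((if G.Adj p.1 p.2 ∧ ((i = p.1 ∧ j = p.2) ∨
      (i = p.2 ∧ j = p.1)) then (1 : ℕ) else 0 : ℕ) : ℂ) := by
      intro p
      split_ifs <;> simp
    simp only [h2]
    rw [← Nat.cast_sum, Nat.cast_ne_zero]
    have h3 : 0 < ∑ p : V × V, (if G.Adj p.1 p.2 ∧ ((i = p.1 ∧ j = p.2) ∨
      (i = p.2 ∧ j = p.1)) then (1 : ℕ) else 0 : ℕ) := by
      refine Finset.sum_pos' (fun _ _ => Nat.zero_le _) ⟨(i, j), Finset.mem_univ _, ?_⟩
      simp [hG]
    exact h3.ne'
  · simp only [hG, iff_false, not_not]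
    refine Finset.sum_eq_zero fun p _ => ?_
    rw [if_neg]
    rintro ⟨h, ⟨h2, h3⟩ | ⟨h2, h3⟩⟩
    · rw [h2, h3] at hG
      exact hG h
    · rw [h2, h3] at hG
      exact hG h.symm

theorem msr_le_of_iso {V W : Type} [Fintype V] [Fintype W] {G : SimpleGraph V} {H : SimpleGraph W}
    (e : G ≃g H) : msr H ≤ msr G := by
  classical
  obtain ⟨A, h1, h2, h3⟩ := Nat.sInf_mem (msr_nonempty G)
  refine Nat.sInf_le ⟨A.submatrix e.symm e.symm, h1.submatrix _, ?_, ?_⟩
  · intro i j hij
    rw [submatrix_apply, h2 _ _ (fun h => hij (e.symm.injective h))]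
    exact e.symm.map_adj_iff
  · have := Matrix.rank_submatrix A e.symm.toEquiv e.symm.toEquiv
    rw [show msr G = A.rank from h3.symm]
    exact this

/-- isomorphic systems have incidence graphs of the same minimum semidefinite rank -/
theorem msr_eq_of_isomorphic {X : Type} [Fintype X] [DecidableEq X] {B C : Finset (Finset X)}
    (h : Isomorphic B C) : msr (incidenceGraph B) = msr (incidenceGraph C) := by
  obtain ⟨σ, rfl⟩ := h
  have hmem : ∀ b, b.image σ ∈ B.image (fun b => b.image σ) ↔ b ∈ B := by
    intro b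
    rw [Finset.mem_image]
    constructor
    · rintro ⟨c, hc, h⟩
      rwa [← Finset.image_injective σ.injective h]
    · intro hb
      exact ⟨b, hb, rfl⟩
  let eB : {b // b ∈ B} ≃ {b // b ∈ B.image (fun b => b.image σ)} :=
    { toFun := fun b => ⟨b.1.image σ, (hmem _).2 b.2⟩
      invFun := fun c => ⟨c.1.image σ.symm, by
        obtain ⟨b, hb, h⟩ := Finset.mem_image.1 c.2
        rw [← h, Finset.image_image]
        simpa using hb⟩
      left_inv := by
        intro b
        apply Subtype.ext
        simp [Finset.image_image]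
      right_inv := by
        intro c
        apply Subtype.ext
        simp [Finset.image_image] }
  let e : incidenceGraph B ≃g incidenceGraph (B.image (fun b => b.image σ)) :=
    { toEquiv := Equiv.sumCongr σ eB
      map_rel_iff' := by
        intro p q
        match p, q with
        | Sum.inl x, Sum.inr b =>
          show σ x ∈ b.1.image σ ↔ x ∈ b.1
          simp
        | Sum.inr b, Sum.inl x =>
          show σ x ∈ b.1.image σ ↔ x ∈ b.1
          simp
        | Sum.inl x, Sum.inl y => exact Iff.rfl
        | Sum.inr b, Sum.inr c => exact Iff.rfl }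
  exact le_antisymm (msr_le_of_iso e.symm) (msr_le_of_iso e)

/-- the number of blocks -/
theorem IsSTS.card {X : Type} [Fintype X] [DecidableEq X] {B : Finset (Finset X)} (h : IsSTS B) :
    6 * B.card = Fintype.card X * (Fintype.card X - 1) := by
  have h1 : (Finset.univ : Finset X).offDiag = B.biUnion (fun b => b.offDiag) := by
    ext ⟨x, y⟩
    simp only [Finset.mem_offDiag, Finset.mem_univ, true_and, Finset.mem_biUnion]
    constructor
    · intro hxy
      obtain ⟨b, ⟨hb, hx, hy⟩, -⟩ := h.2 x y hxy
      exact ⟨b, hb, hx, hy, hxy⟩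
    · rintro ⟨b, _, _, _, hxy⟩
      exact hxy
  have h2 : (Finset.univ : Finset X).offDiag.card = 6 * B.card := by
    rw [h1, Finset.card_biUnion]
    · rw [Finset.sum_congr rfl (g := fun _ => 6)]
      · rw [Finset.sum_const, smul_eq_mul, mul_comm]
      · intro b hb
        rw [Finset.offDiag_card, h.1 b hb]
    · intro b hb c hc hbc
      show Disjoint b.offDiag c.offDiag
      rw [Finset.disjoint_left]
      rintro ⟨x, y⟩ h3 h4
      rw [Finset.mem_offDiag] at h3 h4
      exact hbc ((h.2 x y h3.2.2).unique ⟨hb, h3.1, h3.2.1⟩ ⟨hc, h4.1, h4.2.1⟩)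
  rw [← h2, Finset.offDiag_card, Finset.card_univ, Nat.mul_sub, mul_one]

end Pool.Agent.R117.MSR
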