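import Pool.Agent.R117.MSR.Defs

/-!
Lower bound for the minimum semidefinite rank from a Ramsey property.
-/

set_option autoImplicit false

namespace Pool.Agent.R117.MSR

open Matrix Module
open scoped ComplexOrder

/-- every colouring of the points with `K` colours has a block of one colour -/
def Mono {X : Type} (K : ℕ) (B : Finset (Finset X)) : Prop :=
  ∀ col : X → Fin K, ∃ b ∈ B, ∀ x ∈ b, ∀ y ∈ b, col x = col y

theorem vectors_of_posSemidef {ι : Type} [Fintype ι] (A : Matrix ι ι ℂ) (hA : A.PosSemidef) :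
    ∃ (m : ℕ) (c : ι → EuclideanSpace ℂ (Fin m)), (∀ i j, inner ℂ (c i) (c j) = A i j) ∧
      finrank ℂ (Submodule.span ℂ (Set.range c)) = A.rank := by
  obtain ⟨m, v, hv⟩ := Matrix.posSemidef_iff_eq_sum_vecMulVec.1 hA
  let C : Matrix (Fin m) ι ℂ := Matrix.of fun i a => star (v i a)
  have hC : A = Cᴴ * C := by
    rw [hv]
    ext a b
    rw [Matrix.sum_apply, Matrix.mul_apply]
    refine Finset.sum_congr rfl fun i _ => ?_
    rw [Matrix.vecMulVec_apply, conjTranspose_apply]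
    show v i a * star (v i b) = star (star (v i a)) * star (v i b)
    rw [star_star]
  refine ⟨m, fun a => WithLp.toLp 2 (fun i => C i a), ?_, ?_⟩
  · intro a b
    rw [EuclideanSpace.inner_eq_star_dotProduct, hC, Matrix.mul_apply]
    simp only [dotProduct]
    refine Finset.sum_congr rfl fun i _ => ?_
    rw [conjTranspose_apply, mul_comm]
    rfl
  · rw [hC, rank_conjTranspose_mul_self, rank_eq_finrank_span_cols]
    have h1 : Set.range (fun a => (WithLp.toLp 2 (fun i => C i a) : EuclideanSpace ℂ (Fin m))) =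
        (WithLp.linearEquiv 2 ℂ (Fin m → ℂ)).symm '' (Set.range C.col) := by
      rw [← Set.range_comp]
      rfl
    rw [h1, ← LinearEquiv.coe_coe, Submodule.span_image]
    exact LinearEquiv.finrank_map_eq (WithLp.linearEquiv 2 ℂ (Fin m → ℂ)).symm _

/-- finitely many colours separate the points of the unit sphere up to `1 / 8` -/
theorem exists_colouring (d : ℕ) : ∃ K : ℕ, ∃ f : EuclideanSpace ℂ (Fin d) → Fin (K + 1),
    ∀ w w' : EuclideanSpace ℂ (Fin d), ‖w‖ = 1 → ‖w'‖ = 1 → f w = f w' → ‖w - w'‖ < 1 / 8 := by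
  classical
  obtain ⟨t, -, ht, hcov⟩ := (isCompact_sphere (0 : EuclideanSpace ℂ (Fin d)) 1).finite_cover_balls
    (show (0 : ℝ) < 1 / 16 by norm_num)
  have h1 : ∀ w : EuclideanSpace ℂ (Fin d), ‖w‖ = 1 → ∃ x ∈ t, dist w x < 1 / 16 := by
    intro w hw
    have h2 : w ∈ ⋃ x ∈ t, Metric.ball x (1 / 16) := hcov (by simpa using hw)
    rw [Set.mem_iUnion₂] at h2
    obtain ⟨x, hx, h3⟩ := h2
    exact ⟨x, hx, h3⟩
  let e := ht.toFinset.equivFin
  refine ⟨ht.toFinset.card, fun w => if h : ‖w‖ = 1 then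
    (e ⟨(h1 w h).choose, ht.mem_toFinset.2 (h1 w h).choose_spec.1⟩).castSucc
    else Fin.last _, ?_⟩
  intro w w' hw hw' h
  beta_reduce at h
  rw [dif_pos hw, dif_pos hw', Fin.castSucc_inj, e.injective.eq_iff, Subtype.mk.injEq] at h
  have h3 := (h1 w hw).choose_spec.2
  have h4 := (h1 w' hw').choose_spec.2
  rw [← h] at h4
  rw [← dist_eq_norm]
  calc dist w w' ≤ dist w (h1 w hw).choose + dist w' (h1 w hw).choose :=
        dist_triangle_right _ _ _
    _ < 1 / 8 := by linarith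

/-- three unit vectors close to each other have a triple product with positive real part -/
theorem triple_pos {E : Type} [NormedAddCommGroup E] [InnerProductSpace ℂ E] {x y z : E}
    (hx : ‖x‖ = 1) (hy : ‖y‖ = 1) (hz : ‖z‖ = 1) (hxy : ‖x - y‖ < 1 / 8) (hyz : ‖y - z‖ < 1 / 8)
    (hzx : ‖z - x‖ < 1 / 8) :
    0 < (inner ℂ x y * inner ℂ y z * inner ℂ z x : ℂ).re := by
  have key : ∀ a b : E, ‖a‖ = 1 → ‖b‖ = 1 → ‖a - b‖ < 1 / 8 → ‖(inner ℂ a b : ℂ) - 1‖ < 1 / 8 := by
    intro a b ha hb hab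
    have h1 : (inner ℂ a b : ℂ) - 1 = inner ℂ (a - b) b := by
      rw [inner_sub_left, inner_self_eq_norm_sq_to_K, hb]
      simp
    rw [h1]
    refine (norm_inner_le_norm _ _).trans_lt ?_
    rw [hb, mul_one]
    exact hab
  have h1 := key x y hx hy hxy
  have h2 := key y z hy hz hyz
  have h3 := key z x hz hx hzx
  set p : ℂ := inner ℂ x y
  set q : ℂ := inner ℂ y z
  set r : ℂ := inner ℂ z x
  have h4 : ‖p * q * r - 1‖ < 1 := by
    have e : p * q * r - 1 = (p - 1) * (q - 1) * (r - 1) + (p - 1) * (q - 1) + (q - 1) * (r - 1) +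
        (p - 1) * (r - 1) + (p - 1) + (q - 1) + (r - 1) := by ring
    rw [e]
    have n1 := norm_nonneg (p - 1)
    have n2 := norm_nonneg (q - 1)
    have n3 := norm_nonneg (r - 1)
    refine (norm_add_le _ _).trans_lt ?_
    refine (add_le_add_left (norm_add_le _ _) _).trans_lt ?_
    refine (add_le_add_left (add_le_add_left (norm_add_le _ _) _) _).trans_lt ?_
    refine (add_le_add_left (add_le_add_left (add_le_add_left (norm_add_le _ _) _) _) _).trans_lt ?_
    refine (add_le_add_left (add_le_add_left (add_le_add_left (add_le_add_left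
      (norm_add_le _ _) _) _) _) _).trans_lt ?_
    refine (add_le_add_left (add_le_add_left (add_le_add_left (add_le_add_left
      (add_le_add_left (norm_add_le _ _) _) _) _) _) _).trans_lt ?_
    simp only [norm_mul]
    nlinarith [mul_nonneg n1 n2, mul_nonneg n2 n3, mul_nonneg n1 n3,
      mul_nonneg (mul_nonneg n1 n2) n3]
  have h5 := Complex.abs_re_le_norm (p * q * r - 1)
  have h6 : (p * q * r - 1).re = (p * q * r).re - 1 := by simp
  rw [h6] at h5
  have := (abs_le.1 h5).1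
  linarith

/-- the lower bound: if every colouring with `K` colours has a block of one colour, then the minimum
semidefinite rank exceeds the number of blocks by at least `N` -/
theorem msr_lower (N : ℕ) : ∃ K : ℕ, ∀ (X : Type) [Fintype X] [DecidableEq X]
    (B : Finset (Finset X)), IsSTS B → Mono K B → B.card + N ≤ msr (incidenceGraph B) := by
  classical
  choose k f hf using exists_colouring
  refine ⟨∑ d ∈ Finset.range N, (k d + 1), ?_⟩
  intro X _ _ B hB hmono
  obtain ⟨A, hA, hpat, hrank⟩ := Nat.sInf_mem (msr_nonempty (incidenceGraph B))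
  rw [show msr (incidenceGraph B) = A.rank from hrank.symm]
  clear hrank
  obtain ⟨m, c, hc, hspan⟩ := vectors_of_posSemidef A hA
  -- the block vectors
  set β : {b // b ∈ B} → EuclideanSpace ℂ (Fin m) := fun b => c (Sum.inr b) with hβ
  have hadj : ∀ (b : {b // b ∈ B}) (x : X), A (Sum.inr b) (Sum.inl x) ≠ 0 ↔ x ∈ b.1 :=
    fun b x => hpat (Sum.inr b) (Sum.inl x) Sum.inr_ne_inl
  have hβ0 : ∀ b, β b ≠ 0 := by
    intro b h0
    obtain ⟨x, hx⟩ : b.1.Nonempty := by
      rw [← Finset.card_pos, hB.1 b.1 b.2]; norm_num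
    have h1 := (hadj b x).2 hx
    rw [← hc, show c (Sum.inr b) = 0 from h0, inner_zero_left] at h1
    exact h1 rfl
  have horth : Pairwise fun b b' => inner ℂ (β b) (β b') = (0 : ℂ) := by
    intro b b' hbb
    show inner ℂ (c (Sum.inr b)) (c (Sum.inr b')) = (0 : ℂ)
    rw [hc]
    by_contra h1
    exact (hpat (Sum.inr b) (Sum.inr b') (fun h => hbb (Sum.inr_injective h))).1 h1
  have hli : LinearIndependent ℂ β := linearIndependent_of_ne_zero_of_inner_eq_zero hβ0 horth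
  set U := Submodule.span ℂ (Set.range β) with hU
  set W := Submodule.span ℂ (Set.range c) with hW
  have hUW : U ≤ W := by
    refine Submodule.span_mono ?_
    rintro _ ⟨b, rfl⟩
    exact ⟨Sum.inr b, rfl⟩
  have hdim := Submodule.finrank_add_inf_finrank_orthogonal hUW
  rw [hU, finrank_span_eq_card hli, Fintype.card_coe, ← hU, hspan] at hdim
  set P := Uᗮ ⊓ W with hP
  -- the projections of the point vectors
  set a : {b // b ∈ B} → X → ℂ := fun b x => A (Sum.inr b) (Sum.inl x) with ha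
  have hab : ∀ b x, inner ℂ (β b) (c (Sum.inl x)) = a b x := fun b x => hc _ _
  set n : {b // b ∈ B} → ℝ := fun b => ‖β b‖ ^ 2 with hn
  have hn0 : ∀ b, 0 < n b := fun b => by
    have := norm_pos_iff.2 (hβ0 b)
    positivity
  have hnn : ∀ b, inner ℂ (β b) (β b) = ((n b : ℝ) : ℂ) := by
    intro b
    rw [inner_self_eq_norm_sq_to_K]
    simp [hn]
  set u : X → EuclideanSpace ℂ (Fin m) :=
    fun x => c (Sum.inl x) - ∑ b, (a b x / (n b : ℂ)) • β b with hu
  have huβ : ∀ b x, inner ℂ (β b) (u x) = (0 : ℂ) := by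
    intro b x
    rw [hu]
    simp only
    rw [inner_sub_right, hab, inner_sum, Finset.sum_eq_single b]
    · rw [inner_smul_right, hnn]
      have : ((n b : ℝ) : ℂ) ≠ 0 := by exact_mod_cast (hn0 b).ne'
      field_simp
      simp
    · intro b' _ hb'
      rw [inner_smul_right, horth hb'.symm, mul_zero]
    · simp
  have huP : ∀ x, u x ∈ P := by
    intro x
    refine ⟨?_, ?_⟩
    · show u x ∈ Uᗮ
      rw [Submodule.mem_orthogonal]
      intro w hw
      refine Submodule.span_induction ?_ ?_ ?_ ?_ hw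
      · rintro _ ⟨b, rfl⟩
        exact huβ b x
      · exact inner_zero_left _
      · intro p q _ _ hp hq
        rw [inner_add_left, hp, hq, add_zero]
      · intro r p _ hp
        rw [inner_smul_left, hp, mul_zero]
    · refine Submodule.sub_mem _ (Submodule.subset_span ⟨_, rfl⟩) ?_
      refine Submodule.sum_mem _ fun b _ => ?_
      exact Submodule.smul_mem _ _ (Submodule.subset_span ⟨Sum.inr b, rfl⟩)
  -- the inner products of the projections
  have huu : ∀ b : {b // b ∈ B}, ∀ x y, x ∈ b.1 → y ∈ b.1 → x ≠ y →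
      inner ℂ (u x) (u y) = - (star (a b x) * a b y) / (n b : ℂ) := by
    intro b x y hx hy hxy
    have h1 : inner ℂ (u x) (u y) = inner ℂ (u x) (c (Sum.inl y)) := by
      have h2 : u y = c (Sum.inl y) - ∑ b, (a b y / (n b : ℂ)) • β b := rfl
      rw [h2, inner_sub_right, inner_sum, Finset.sum_eq_zero, sub_zero]
      intro b' _
      rw [inner_smul_right, ← inner_conj_symm, huβ, map_zero, mul_zero]
    rw [h1]
    have h2 : u x = c (Sum.inl x) - ∑ b, (a b x / (n b : ℂ)) • β b := rfl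
    rw [h2, inner_sub_left, sum_inner, hc]
    have h3 : A (Sum.inl x) (Sum.inl y) = 0 := by
      by_contra h4
      exact (hpat (Sum.inl x) (Sum.inl y) (fun h => hxy (Sum.inl_injective h))).1 h4
    rw [h3, Finset.sum_eq_single b]
    · rw [inner_smul_left, hab]
      simp only [map_div₀, Complex.conj_ofReal]
      simp only [starRingEnd_apply]
      ring
    · intro b' _ hb'
      rw [inner_smul_left, hab]
      by_cases h4 : a b' x = 0
      · rw [h4]; simp
      · by_cases h5 : a b' y = 0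
        · rw [h5]; simp
        · exact absurd (Subtype.ext ((hB.2 x y hxy).unique
            ⟨b'.2, (hadj b' x).1 h4, (hadj b' y).1 h5⟩ ⟨b.2, hx, hy⟩)) hb'
    · simp
  by_contra hlt
  have hd : finrank ℂ P < N := by omega
  -- the colouring
  let e := stdOrthonormalBasis ℂ P
  let w : X → EuclideanSpace ℂ (Fin (finrank ℂ P)) :=
    fun x => ((‖u x‖⁻¹ : ℝ) : ℂ) • e.repr ⟨u x, huP x⟩
  have hle : k (finrank ℂ P) + 1 ≤ ∑ d ∈ Finset.range N, (k d + 1) :=
    Finset.single_le_sum (f := fun d => k d + 1) (fun _ _ => Nat.zero_le _)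
      (Finset.mem_range.2 hd)
  obtain ⟨b, hb, hcol⟩ := hmono (fun x => Fin.castLE hle (f _ (w x)))
  obtain ⟨x, y, z, hxy, hxz, hyz, hbe⟩ := Finset.card_eq_three.1 (hB.1 b hb)
  have hx : x ∈ b := by rw [hbe]; simp
  have hy : y ∈ b := by rw [hbe]; simp
  have hz : z ∈ b := by rw [hbe]; simp
  have hne : ∀ x ∈ b, ∀ y ∈ b, x ≠ y → inner ℂ (u x) (u y) ≠ (0 : ℂ) := by
    intro x hx y hy hxy
    rw [huu ⟨b, hb⟩ x y hx hy hxy]
    have h1 := (hadj ⟨b, hb⟩ x).2 hx
    have h2 := (hadj ⟨b, hb⟩ y).2 hy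
    have h3 : ((n ⟨b, hb⟩ : ℝ) : ℂ) ≠ 0 := by exact_mod_cast (hn0 _).ne'
    exact div_ne_zero (neg_ne_zero.2 (mul_ne_zero (star_ne_zero.2 h1) h2)) h3
  have hu0 : ∀ p ∈ b, u p ≠ 0 := by
    intro p hp h0
    obtain ⟨q, hq, hpq⟩ : ∃ q ∈ b, p ≠ q := by
      by_cases h1 : p = x
      · exact ⟨y, hy, h1 ▸ hxy⟩
      · exact ⟨x, hx, h1⟩
    exact hne p hp q hq hpq (by rw [h0, inner_zero_left])
  have hwn : ∀ p ∈ b, ‖w p‖ = 1 := by
    intro p hp
    have h1 : ‖u p‖ ≠ 0 := norm_ne_zero_iff.2 (hu0 p hp)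
    have h2 : ‖w p‖ = ‖(((‖u p‖⁻¹ : ℝ)) : ℂ)‖ * ‖(⟨u p, huP p⟩ : P)‖ := by
      rw [norm_smul, LinearIsometryEquiv.norm_map]
    rw [h2, Complex.norm_real, norm_inv, norm_norm]
    exact inv_mul_cancel₀ h1
  have hdist : ∀ p ∈ b, ∀ q ∈ b, ‖w p - w q‖ < 1 / 8 := by
    intro p hp q hq
    exact hf _ _ _ (hwn p hp) (hwn q hq) (Fin.castLE_injective hle (hcol p hp q hq))
  have hpos := triple_pos (hwn x hx) (hwn y hy) (hwn z hz) (hdist x hx y hy) (hdist y hy z hz)
    (hdist z hz x hx)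
  have hwu : ∀ p q, inner ℂ (w p) (w q) = (((‖u p‖⁻¹ * ‖u q‖⁻¹ : ℝ)) : ℂ) *
      inner ℂ (u p) (u q) := by
    intro p q
    have h1 : inner ℂ (w p) (w q) = (starRingEnd ℂ) ((‖u p‖⁻¹ : ℝ) : ℂ) * (((‖u q‖⁻¹ : ℝ) : ℂ) *
        inner ℂ (e.repr ⟨u p, huP p⟩) (e.repr ⟨u q, huP q⟩)) := by
      rw [inner_smul_left, inner_smul_right]
    rw [h1, LinearIsometryEquiv.inner_map_map, Complex.conj_ofReal]
    push_cast
    rw [Submodule.coe_inner]
    ring
  -- the triple product is negative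
  have h1 : inner ℂ (w x) (w y) * inner ℂ (w y) (w z) * inner ℂ (w z) (w x) =
      ((-((‖u x‖⁻¹ * ‖u y‖⁻¹) * (‖u y‖⁻¹ * ‖u z‖⁻¹) * (‖u z‖⁻¹ * ‖u x‖⁻¹) *
        (‖a ⟨b, hb⟩ x‖ ^ 2 * ‖a ⟨b, hb⟩ y‖ ^ 2 * ‖a ⟨b, hb⟩ z‖ ^ 2) / (n ⟨b, hb⟩) ^ 3) : ℝ) : ℂ) := by
    rw [hwu, hwu, hwu, huu ⟨b, hb⟩ x y hx hy hxy, huu ⟨b, hb⟩ y z hy hz hyz,
      huu ⟨b, hb⟩ z x hz hx hxz.symm]
    have e1 : ∀ r : ℂ, ((‖r‖ : ℝ) : ℂ) ^ 2 = star r * r := by
      intro r
      have := Complex.normSq_eq_conj_mul_self (z := r)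
      rw [← Complex.ofReal_pow, ← Complex.normSq_eq_norm_sq, this]
      rfl
    push_cast
    rw [e1, e1, e1]
    ring
  rw [h1, Complex.ofReal_re] at hpos
  have h2 : 0 ≤ ((‖u x‖⁻¹ * ‖u y‖⁻¹) * (‖u y‖⁻¹ * ‖u z‖⁻¹) * (‖u z‖⁻¹ * ‖u x‖⁻¹) *
        (‖a ⟨b, hb⟩ x‖ ^ 2 * ‖a ⟨b, hb⟩ y‖ ^ 2 * ‖a ⟨b, hb⟩ z‖ ^ 2) / (n ⟨b, hb⟩) ^ 3) := by
    have := (hn0 ⟨b, hb⟩).le
    positivity
  linarith

end Pool.Agent.R117.MSR
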