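import Pool.Agent.R117.MSR.Defs
import Pool.Agent.R117.MSR.Lower

/-!
The projective Steiner triple systems have the Ramsey property (Schur's theorem).
-/

set_option autoImplicit false

namespace Pool.Agent.R117.MSR

/-- multicolour Ramsey theorem for triangles -/
theorem ramsey {γ : Type} [DecidableEq γ] (k : ℕ) : ∃ M : ℕ, ∀ (α : Type) [DecidableEq α]
    (S : Finset α) (C : Finset γ) (col : α → α → γ), C.card = k → M ≤ S.card →
    (∀ a ∈ S, ∀ b ∈ S, a ≠ b → col a b ∈ C) →
    ∃ a ∈ S, ∃ b ∈ S, ∃ d ∈ S, a ≠ b ∧ b ≠ d ∧ a ≠ d ∧ col a b = col b d ∧ col a d = col b d := by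
  induction k with
  | zero =>
    refine ⟨2, ?_⟩
    intro α _ S C col hC hS h
    obtain ⟨a, ha, b, hb, hab⟩ := Finset.one_lt_card.1 (show 1 < S.card by omega)
    have h1 := h a ha b hb hab
    rw [Finset.card_eq_zero.1 hC] at h1
    exact absurd h1 (Finset.notMem_empty _)
  | succ k ih =>
    obtain ⟨M, hM⟩ := ih
    refine ⟨(k + 1) * (M + 1) + 1, ?_⟩
    intro α _ S C col hC hS h
    obtain ⟨a, ha⟩ : S.Nonempty := by
      rw [← Finset.card_pos]; omega
    have h1 : (S.erase a).card = S.card - 1 := Finset.card_erase_of_mem ha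
    have h2 : ∀ s ∈ S.erase a, col a s ∈ C := by
      intro s hs
      exact h a ha s (Finset.mem_of_mem_erase hs) (Finset.ne_of_mem_erase hs).symm
    obtain ⟨c, hc, hfib⟩ := Finset.exists_le_card_fiber_of_mul_le_card_of_maps_to h2
      (n := M + 1) (by
        rw [← Finset.card_pos]; omega) (by rw [hC, h1]; omega)
    set T := (S.erase a).filter (fun s => col a s = c) with hT
    have hTm : ∀ s ∈ T, s ∈ S ∧ s ≠ a ∧ col a s = c := by
      intro s hs
      rw [hT, Finset.mem_filter, Finset.mem_erase] at hs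
      exact ⟨hs.1.2, hs.1.1, hs.2⟩
    by_cases hex : ∃ b ∈ T, ∃ d ∈ T, b ≠ d ∧ col b d = c
    · obtain ⟨b, hb, d, hd, hbd, hcol⟩ := hex
      obtain ⟨hb1, hb2, hb3⟩ := hTm b hb
      obtain ⟨hd1, hd2, hd3⟩ := hTm d hd
      exact ⟨a, ha, b, hb1, d, hd1, hb2.symm, hbd, hd2.symm, by rw [hb3, hcol],
        by rw [hd3, hcol]⟩
    · push Not at hex
      obtain ⟨x, hx, y, hy, z, hz, h3⟩ := hM α T (C.erase c) col
        (by rw [Finset.card_erase_of_mem hc, hC]; rfl) (by omega) (by
          intro p hp q hq hpq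
          rw [Finset.mem_erase]
          exact ⟨hex p hp q hq hpq, h p (hTm p hp).1 q (hTm q hq).1 hpq⟩)
      exact ⟨x, (hTm x hx).1, y, (hTm y hy).1, z, (hTm z hz).1, h3⟩

/-- the nonzero vectors of the space of dimension `n` over the field with two elements -/
abbrev Pt (n : ℕ) : Type := {v : Fin n → ZMod 2 // v ≠ 0}

theorem add_self_vec {n : ℕ} (x : Fin n → ZMod 2) : x + x = 0 := by
  funext i
  exact CharTwo.add_self_eq_zero (x i)

theorem add_eq_zero_vec {n : ℕ} {x y : Fin n → ZMod 2} (h : x + y = 0) : x = y := by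
  calc x = x + (y + y) := by rw [add_self_vec, add_zero]
    _ = (x + y) + y := by abel
    _ = y := by rw [h, zero_add]

/-- the lines of the projective space -/
def lines (n : ℕ) : Finset (Finset (Pt n)) :=
  Finset.univ.filter fun b => b.card = 3 ∧ ∀ x ∈ b, ∀ y ∈ b, x ≠ y → ∃ z ∈ b, z.1 = x.1 + y.1

theorem line_mem {n : ℕ} {x y z : Pt n} (hxy : x ≠ y) (h : z.1 = x.1 + y.1) :
    ({x, y, z} : Finset (Pt n)) ∈ lines n := by
  have hxz : x ≠ z := by
    rintro rfl
    have h1 : y.1 = 0 := by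
      have := congrArg (fun w => x.1 + w) h
      simp only [← add_assoc, add_self_vec, zero_add] at this
      exact this.symm
    exact y.2 h1
  have hyz : y ≠ z := by
    rintro rfl
    have h1 : x.1 = 0 := by
      have := congrArg (fun w => w + y.1) h
      simp only [add_assoc, add_self_vec, add_zero] at this
      exact this.symm
    exact x.2 h1
  have e1 : y.1 + z.1 = x.1 := by
    rw [h, add_comm x.1, ← add_assoc, add_self_vec, zero_add]
  have e2 : x.1 + z.1 = y.1 := by
    rw [h, ← add_assoc, add_self_vec, zero_add]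
  rw [lines, Finset.mem_filter]
  refine ⟨Finset.mem_univ _, Finset.card_eq_three.2 ⟨x, y, z, hxy, hxz, hyz, rfl⟩, ?_⟩
  intro p hp q hq hpq
  simp only [Finset.mem_insert, Finset.mem_singleton] at hp hq
  rcases hp with rfl | rfl | rfl <;> rcases hq with rfl | rfl | rfl
  · exact absurd rfl hpq
  · exact ⟨z, by simp, h⟩
  · exact ⟨y, by simp, e2.symm⟩
  · exact ⟨z, by simp, by rw [h, add_comm]⟩
  · exact absurd rfl hpq
  · exact ⟨x, by simp, e1.symm⟩
  · exact ⟨y, by simp, by rw [add_comm, e2]⟩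
  · exact ⟨x, by simp, by rw [add_comm, e1]⟩
  · exact absurd rfl hpq

theorem lines_isSTS (n : ℕ) : IsSTS (lines n) := by
  refine ⟨fun b hb => (Finset.mem_filter.1 hb).2.1, ?_⟩
  intro x y hxy
  have hne : x.1 + y.1 ≠ 0 := fun h => hxy (Subtype.ext (add_eq_zero_vec h))
  refine ⟨{x, y, ⟨x.1 + y.1, hne⟩}, ⟨line_mem hxy rfl, by simp, by simp⟩, ?_⟩
  rintro b ⟨hb, hx, hy⟩
  obtain ⟨-, hb3, hcl⟩ := Finset.mem_filter.1 hb
  obtain ⟨z, hz, hz1⟩ := hcl x hx y hy hxy
  have hze : z = ⟨x.1 + y.1, hne⟩ := Subtype.ext hz1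
  symm
  refine Finset.eq_of_subset_of_card_le ?_ ?_
  · intro w hw
    simp only [Finset.mem_insert, Finset.mem_singleton] at hw
    rcases hw with rfl | rfl | rfl
    · exact hx
    · exact hy
    · rw [← hze]; exact hz
  · rw [hb3]
    exact ((Finset.mem_filter.1 (line_mem hxy rfl : ({x, y, ⟨x.1 + y.1, hne⟩} :
      Finset (Pt n)) ∈ lines n)).2.1).ge

theorem card_pt (n : ℕ) : Fintype.card (Pt n) = 2 ^ n - 1 := by
  rw [Fintype.card_subtype_compl]
  simp [ZMod.card]

/-- Schur's theorem: for large `n` every colouring of the points has a line of one colour -/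
theorem schur (K : ℕ) : ∃ n0 : ℕ, ∀ n, n0 ≤ n → Mono K (lines n) := by
  classical
  obtain ⟨M, hM⟩ := ramsey (γ := Option (Fin K)) (K + 1)
  refine ⟨M, fun n hn col => ?_⟩
  let cc : (Fin n → ZMod 2) → (Fin n → ZMod 2) → Option (Fin K) := fun a b =>
    if h : a + b ≠ 0 then some (col ⟨a + b, h⟩) else none
  have hcard : M ≤ (Finset.univ : Finset (Fin n → ZMod 2)).card := by
    rw [Finset.card_univ, Fintype.card_fun, ZMod.card, Fintype.card_fin]
    exact hn.trans (Nat.lt_two_pow_self).le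
  obtain ⟨a, -, b, -, d, -, hab, hbd, had, h1, h2⟩ := hM (Fin n → ZMod 2) Finset.univ
    Finset.univ cc (by simp) hcard (fun _ _ _ _ _ => Finset.mem_univ _)
  have n1 : a + b ≠ 0 := fun h => hab (add_eq_zero_vec h)
  have n2 : b + d ≠ 0 := fun h => hbd (add_eq_zero_vec h)
  have n3 : a + d ≠ 0 := fun h => had (add_eq_zero_vec h)
  simp only [cc, dif_pos n1, dif_pos n2, dif_pos n3, Option.some_inj] at h1 h2
  have hne : (⟨a + b, n1⟩ : Pt n) ≠ ⟨b + d, n2⟩ := by
    intro h
    rw [Subtype.mk.injEq, add_comm a b] at h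
    exact had (add_left_cancel h)
  have hsum : (⟨a + d, n3⟩ : Pt n).1 = (⟨a + b, n1⟩ : Pt n).1 + (⟨b + d, n2⟩ : Pt n).1 := by
    show a + d = a + b + (b + d)
    have : a + b + (b + d) = a + (b + b) + d := by abel
    rw [this, add_self_vec, add_zero]
  refine ⟨_, line_mem hne hsum, ?_⟩
  intro x hx y hy
  simp only [Finset.mem_insert, Finset.mem_singleton] at hx hy
  rcases hx with rfl | rfl | rfl <;> rcases hy with rfl | rfl | rfl
  · rfl
  · exact h1
  · rw [h1, h2]
  · exact h1.symm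
  · rfl
  · exact h2.symm
  · rw [h1, h2]
  · exact h2
  · rfl

end Pool.Agent.R117.MSR
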