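import Pool.Agent.R117.MSR.Defs

/-!
Upper bound for the minimum semidefinite rank from real vectors with sign conditions.
-/

set_option autoImplicit false

namespace Pool.Agent.R117.MSR

open Matrix
open scoped ComplexOrder

/-- the sign condition on the blocks -/
def NegOn {X κ : Type} [DecidableEq X] [Fintype κ] (B : Finset (Finset X)) (u : X → κ → ℝ) : Prop :=
  ∀ b ∈ B, ∀ x y z, x ∈ b → y ∈ b → z ∈ b → x ≠ y → y ≠ z → x ≠ z →
    (∑ k, u x k * u y k) * (∑ k, u y k * u z k) * (∑ k, u x k * u z k) < 0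

theorem exists_alpha {X κ : Type} [DecidableEq X] [Fintype κ] {b : Finset X} (hb : b.card = 3)
    (u : X → κ → ℝ) (h : ∀ x y z, x ∈ b → y ∈ b → z ∈ b → x ≠ y → y ≠ z → x ≠ z →
    (∑ k, u x k * u y k) * (∑ k, u y k * u z k) * (∑ k, u x k * u z k) < 0) :
    ∃ α : X → ℝ, (∀ x, α x ≠ 0 ↔ x ∈ b) ∧
      ∀ x y, x ∈ b → y ∈ b → x ≠ y → α x * α y = - ∑ k, u x k * u y k := by
  obtain ⟨x, y, z, hxy, hxz, hyz, rfl⟩ := Finset.card_eq_three.1 hb
  have h0 := h x y z (by simp) (by simp) (by simp) hxy hyz hxz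
  set s : ℝ := ∑ k, u x k * u y k with hs
  set t : ℝ := ∑ k, u y k * u z k with ht
  set r : ℝ := ∑ k, u x k * u z k with hr
  have hs' : ∑ k, u y k * u x k = s := by
    rw [hs]; exact Finset.sum_congr rfl fun k _ => mul_comm _ _
  have ht' : ∑ k, u z k * u y k = t := by
    rw [ht]; exact Finset.sum_congr rfl fun k _ => mul_comm _ _
  have hr' : ∑ k, u z k * u x k = r := by
    rw [hr]; exact Finset.sum_congr rfl fun k _ => mul_comm _ _
  have hs0 : s ≠ 0 := by rintro h1; rw [h1] at h0; simp at h0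
  have ht0 : t ≠ 0 := by rintro h1; rw [h1] at h0; simp at h0
  have hr0 : r ≠ 0 := by rintro h1; rw [h1] at h0; simp at h0
  have hpos : 0 < -(s * r / t) := by
    have h1 : s * r / t = (s * t * r) / t ^ 2 := by
      field_simp
    rw [h1]
    have h2 : 0 < t ^ 2 := by positivity
    have := div_neg_of_neg_of_pos h0 h2
    linarith
  set a : ℝ := Real.sqrt (-(s * r / t)) with ha
  have ha2 : a * a = -(s * r / t) := Real.mul_self_sqrt hpos.le
  have ha0 : a ≠ 0 := by
    intro h1
    rw [h1] at ha2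
    simp only [mul_zero] at ha2
    linarith
  refine ⟨fun w => if w = x then a else if w = y then -s / a else if w = z then -r / a else 0,
    ?_, ?_⟩
  · intro w
    simp only [Finset.mem_insert, Finset.mem_singleton]
    split_ifs with h1 h2 h3
    · simp [h1, ha0]
    · simp [h2, ha0, hs0]
    · simp [h3, ha0, hr0]
    · simp [h1, h2, h3]
  · have e1 : a * (-s / a) = -s := by field_simp
    have e2 : a * (-r / a) = -r := by field_simp
    have e3 : -s / a * (-r / a) = -t := by
      have : -s / a * (-r / a) = s * r / (a * a) := by ring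
      rw [this, ha2]
      field_simp
    intro w w' hw hw' hne
    simp only [Finset.mem_insert, Finset.mem_singleton] at hw hw'
    rcases hw with rfl | rfl | rfl <;> rcases hw' with rfl | rfl | rfl
    · exact absurd rfl hne
    · simp only [hxy.symm, if_true, if_false]
      exact e1
    · simp only [hxz.symm, hyz.symm, if_true, if_false]
      exact e2
    · simp only [hxy.symm, if_true, if_false]
      rw [mul_comm, hs']
      exact e1
    · exact absurd rfl hne
    · simp only [hxy.symm, hxz.symm, hyz.symm, if_true, if_false]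
      exact e3
    · simp only [hxz.symm, hyz.symm, if_true, if_false]
      rw [mul_comm, hr']
      exact e2
    · simp only [hxy.symm, hxz.symm, hyz.symm, if_true, if_false]
      rw [mul_comm, ht']
      exact e3
    · exact absurd rfl hne

theorem msr_le_of_vectors {X κ : Type} [Fintype X] [DecidableEq X] [Fintype κ] [DecidableEq κ]
    {B : Finset (Finset X)} (h : IsSTS B) (u : X → κ → ℝ) (hneg : NegOn B u) :
    msr (incidenceGraph B) ≤ B.card + Fintype.card κ := by
  classical
  have h1 : ∀ b : {b // b ∈ B}, ∃ α : X → ℝ, (∀ x, α x ≠ 0 ↔ x ∈ b.1) ∧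
      ∀ x y, x ∈ b.1 → y ∈ b.1 → x ≠ y → α x * α y = - ∑ k, u x k * u y k := fun b =>
    exists_alpha (h.1 b.1 b.2) u (hneg b.1 b.2)
  choose α hα1 hα2 using h1
  let W : Matrix (X ⊕ {b // b ∈ B}) (κ ⊕ {b // b ∈ B}) ℂ :=
    Matrix.of fun p q => match p, q with
    | Sum.inl x, Sum.inl k => ((u x k : ℝ) : ℂ)
    | Sum.inl x, Sum.inr b => ((α b x : ℝ) : ℂ)
    | Sum.inr _, Sum.inl _ => 0
    | Sum.inr b, Sum.inr c => if b = c then 1 else 0
  have hW : (W * Wᴴ).rank ≤ B.card + Fintype.card κ := by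
    refine (Matrix.rank_mul_le_left W Wᴴ).trans ((Matrix.rank_le_card_width W).trans ?_)
    rw [Fintype.card_sum, Fintype.card_coe, add_comm]
  refine le_trans (Nat.sInf_le ⟨W * Wᴴ, posSemidef_self_mul_conjTranspose W, ?_, rfl⟩) hW
  have key : ∀ p q, (W * Wᴴ) p q = ∑ k, W p (Sum.inl k) * star (W q (Sum.inl k)) +
      ∑ b, W p (Sum.inr b) * star (W q (Sum.inr b)) := by
    intro p q
    rw [Matrix.mul_apply, Fintype.sum_sum_type]
    rfl
  have hXB : ∀ x b, (W * Wᴴ) (Sum.inl x) (Sum.inr b) = ((α b x : ℝ) : ℂ) := by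
    intro x b
    rw [key]
    have e1 : ∀ k : κ, W (Sum.inr b) (Sum.inl k) = 0 := fun k => rfl
    have e2 : ∀ c, W (Sum.inr b) (Sum.inr c) = if b = c then 1 else 0 := fun c => rfl
    have e3 : ∀ c, W (Sum.inl x) (Sum.inr c) = ((α c x : ℝ) : ℂ) := fun c => rfl
    simp only [e1, e2, e3, star_zero, mul_zero, Finset.sum_const_zero, zero_add]
    rw [Finset.sum_eq_single b]
    · simp
    · intro c _ hc
      rw [if_neg hc.symm]
      simp
    · simp
  have hBX : ∀ x b, (W * Wᴴ) (Sum.inr b) (Sum.inl x) = ((α b x : ℝ) : ℂ) := by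
    intro x b
    rw [key]
    have e1 : ∀ k : κ, W (Sum.inr b) (Sum.inl k) = 0 := fun k => rfl
    have e2 : ∀ c, W (Sum.inr b) (Sum.inr c) = if b = c then 1 else 0 := fun c => rfl
    have e3 : ∀ c, W (Sum.inl x) (Sum.inr c) = ((α c x : ℝ) : ℂ) := fun c => rfl
    simp only [e1, e2, e3, zero_mul, Finset.sum_const_zero, zero_add]
    rw [Finset.sum_eq_single b]
    · simp
    · intro c _ hc
      rw [if_neg hc.symm]
      simp
    · simp
  intro p q hpq
  match p, q with
  | Sum.inl x, Sum.inr b =>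
    rw [hXB]
    show ((α b x : ℝ) : ℂ) ≠ 0 ↔ x ∈ b.1
    rw [Complex.ofReal_ne_zero]
    exact hα1 b x
  | Sum.inr b, Sum.inl x =>
    rw [hBX]
    show ((α b x : ℝ) : ℂ) ≠ 0 ↔ x ∈ b.1
    rw [Complex.ofReal_ne_zero]
    exact hα1 b x
  | Sum.inr b, Sum.inr c =>
    have hbc : b ≠ c := fun h => hpq (by rw [h])
    have e : (W * Wᴴ) (Sum.inr b) (Sum.inr c) = 0 := by
      rw [key]
      have e1 : ∀ k : κ, W (Sum.inr b) (Sum.inl k) = 0 := fun k => rfl
      have e2 : ∀ b c, W (Sum.inr b) (Sum.inr c) = if b = c then 1 else 0 := fun b c => rfl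
      simp only [e1, e2, zero_mul, Finset.sum_const_zero, zero_add]
      refine Finset.sum_eq_zero fun d _ => ?_
      by_cases h3 : b = d
      · rw [if_neg (fun h4 => hbc (h3.trans h4.symm) : ¬ c = d)]
        simp
      · rw [if_neg h3]
        simp
    rw [e]
    show (0 : ℂ) ≠ 0 ↔ False
    simp
  | Sum.inl x, Sum.inl y =>
    have hxy : x ≠ y := fun h => hpq (by rw [h])
    have e : (W * Wᴴ) (Sum.inl x) (Sum.inl y) = 0 := by
      rw [key]
      have e1 : ∀ (x : X) (k : κ), W (Sum.inl x) (Sum.inl k) = ((u x k : ℝ) : ℂ) :=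
        fun x k => rfl
      have e3 : ∀ (x : X) c, W (Sum.inl x) (Sum.inr c) = ((α c x : ℝ) : ℂ) := fun x c => rfl
      simp only [e1, e3]
      have e4 : ∀ r : ℝ, star ((r : ℝ) : ℂ) = (r : ℂ) := fun r => Complex.conj_ofReal r
      simp only [e4]
      obtain ⟨b, ⟨hb, hx, hy⟩, hu⟩ := h.2 x y hxy
      have e5 : ∑ c : {b // b ∈ B}, ((α c x : ℝ) : ℂ) * ((α c y : ℝ) : ℂ) =
          ((- ∑ k, u x k * u y k : ℝ) : ℂ) := by
        rw [Finset.sum_eq_single (⟨b, hb⟩ : {b // b ∈ B})]
        · rw [← Complex.ofReal_mul, hα2 ⟨b, hb⟩ x y hx hy hxy]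
        · intro c _ hc
          by_cases h3 : α c x = 0
          · rw [h3]; simp
          · by_cases h4 : α c y = 0
            · rw [h4]; simp
            · exact absurd (Subtype.ext (hu c.1 ⟨c.2, (hα1 c x).1 h3, (hα1 c y).1 h4⟩)) hc
        · simp
      rw [e5]
      push_cast
      ring
    rw [e]
    show (0 : ℂ) ≠ 0 ↔ False
    simp

end Pool.Agent.R117.MSR
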