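import Pool.Agent.R117.MSR.Bose

/-!
Vectors for the Bose system in dimension nine.
-/

set_option autoImplicit false

namespace Pool.Agent.R117.MSR

variable {m : ℕ} [NeZero m]

/-- the additive character -/
noncomputable def ee (x : ZMod m) : ℂ := ZMod.stdAddChar x

theorem ee_norm (x : ZMod m) : (ee x).re ^ 2 + (ee x).im ^ 2 = 1 := by
  have h1 : ‖ee x‖ = 1 := by
    unfold ee
    rw [ZMod.stdAddChar_apply]
    exact Circle.norm_coe _
  have h2 := Complex.normSq_eq_norm_sq (ee x)
  rw [h1, Complex.normSq_apply] at h2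
  nlinarith

theorem ee_add (x y : ZMod m) : ee (x + y) = ee x * ee y := AddChar.map_add_eq_mul _ _ _

theorem ee_zero : ee (0 : ZMod m) = 1 := AddChar.map_zero_eq_one _

theorem ee_neg (x : ZMod m) : ee (-x) = (starRingEnd ℂ) (ee x) := by
  have h1 : ee (-x) * ee x = 1 := by rw [← ee_add, neg_add_cancel, ee_zero]
  have h2 : (starRingEnd ℂ) (ee x) * ee x = 1 := by
    rw [← Complex.normSq_eq_conj_mul_self, Complex.normSq_apply]
    have := ee_norm x
    have e : (ee x).re * (ee x).re + (ee x).im * (ee x).im = 1 := by nlinarith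
    rw [e]
    simp
  have h3 : ee x ≠ 0 := by
    intro h0
    rw [h0, mul_zero] at h1
    exact zero_ne_one h1
  exact mul_right_cancel₀ h3 (h1.trans h2.symm)

theorem ee_sub_re (x y : ZMod m) :
    (ee (x - y)).re = (ee x).re * (ee y).re + (ee x).im * (ee y).im := by
  rw [sub_eq_add_neg, ee_add, ee_neg, Complex.mul_re, Complex.conj_re, Complex.conj_im]
  ring

theorem ee_sub_im (x y : ZMod m) :
    (ee (x - y)).im = (ee x).im * (ee y).re - (ee x).re * (ee y).im := by
  rw [sub_eq_add_neg, ee_add, ee_neg, Complex.mul_im, Complex.conj_re, Complex.conj_im]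
  ring

theorem ee_neg_im (x : ZMod m) : (ee (-x)).im = -(ee x).im := by
  rw [ee_neg, Complex.conj_im]

theorem ee_im_ne {h : ZMod m} (hh : 2 * h = 1) {d : ZMod m} (hd : d ≠ 0) : (ee d).im ≠ 0 := by
  intro h0
  have h1 := ee_norm d
  rw [h0] at h1
  have h2 : ee d * ee d = 1 := by
    apply Complex.ext
    · rw [Complex.mul_re, h0]
      simp
      nlinarith
    · rw [Complex.mul_im, h0]
      simp
  rw [← ee_add, ← ee_zero (m := m)] at h2
  have h3 : d + d = 0 := ZMod.injective_stdAddChar h2
  apply hd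
  calc d = (2 * h) * d := by rw [hh, one_mul]
    _ = h * (d + d) := by ring
    _ = 0 := by rw [h3, mul_zero]

/-- the vectors -/
noncomputable def vec (t : ℝ) (p : ZMod m × Fin 3) : Fin 3 ⊕ Fin 3 ⊕ Fin 3 → ℝ
  | Sum.inl j => (if j = p.2 then 2 else 0) - t
  | Sum.inr (Sum.inl j) => if j = p.2 then (ee p.1).re else if j + 1 = p.2 then -(ee p.1).im else 0
  | Sum.inr (Sum.inr j) => if j = p.2 then (ee p.1).im else if j + 1 = p.2 then (ee p.1).re else 0

theorem vec_inner (t : ℝ) (x y : ZMod m) (i j : Fin 3) :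
    ∑ k, vec t (x, i) k * vec t (y, j) k =
      if i = j then 4 - 4 * t + 3 * t ^ 2 + 2 * (ee (x - y)).re
      else if j = i + 1 then -(4 * t - 3 * t ^ 2) + (ee (x - y)).im
      else -(4 * t - 3 * t ^ 2) - (ee (x - y)).im := by
  rw [ee_sub_re, ee_sub_im, Fintype.sum_sum_type, Fintype.sum_sum_type]
  simp only [Fin.sum_univ_three, vec]
  fin_cases i <;> fin_cases j <;> simp <;> ring

theorem exists_delta {h : ZMod m} (hh : 2 * h = 1) :
    ∃ δ : ℝ, 0 < δ ∧ δ ≤ 1 ∧ ∀ d : ZMod m, d ≠ 0 → δ ≤ |(ee d).im| := by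
  obtain ⟨d0, hd0⟩ := Finite.exists_min (fun d : ZMod m => if d = 0 then (1 : ℝ) else |(ee d).im|)
  refine ⟨if d0 = 0 then (1 : ℝ) else |(ee d0).im|, ?_, ?_, ?_⟩
  · split_ifs with h0
    · norm_num
    · exact abs_pos.2 (ee_im_ne hh h0)
  · simpa using hd0 0
  · intro d hd
    simpa [hd] using hd0 d

theorem exists_vectors {h : ZMod m} (hh : 2 * h = 1) :
    ∃ u : ZMod m × Fin 3 → Fin 3 ⊕ Fin 3 ⊕ Fin 3 → ℝ, NegOn (tauBlocks (bose h)) u := by
  obtain ⟨δ, hδ0, hδ1, hδ⟩ := exists_delta hh
  refine ⟨vec (δ / 8), ?_⟩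
  set t : ℝ := δ / 8 with ht
  set η : ℝ := 4 * t - 3 * t ^ 2 with hη
  have ht0 : 0 < t := by positivity
  have ht1 : t ≤ 1 / 8 := by rw [ht]; linarith
  have hη0 : 0 < η := by rw [hη]; nlinarith
  have hηδ : η < δ := by rw [hη, ht]; nlinarith
  have hc : ∀ d : ZMod m, 0 < 4 - 4 * t + 3 * t ^ 2 + 2 * (ee d).re := by
    intro d
    have h1 := ee_norm d
    have h2 : -1 ≤ (ee d).re := by nlinarith [sq_nonneg (ee d).im]
    nlinarith
  have hI : ∀ d : ZMod m, d ≠ 0 → η ^ 2 < (ee d).im ^ 2 := by
    intro d hd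
    have h1 := hδ d hd
    rw [← sq_abs (ee d).im]
    nlinarith
  have hneg : ∀ a c : ℝ, ∀ d : ZMod m, d ≠ 0 → 0 < c → a = (ee d).im →
      c * ((-η - a) * (-η + a)) < 0 := by
    intro a c d hd hc ha
    have h1 := hI d hd
    rw [← ha] at h1
    have h2 : (-η - a) * (-η + a) < 0 := by nlinarith
    exact mul_neg_of_pos_of_neg hc h2
  refine tau_negOn (bose_ne_left hh) (bose_ne_right hh) ?_
  rintro ⟨x, i⟩ ⟨y, j⟩ hne
  by_cases hij : i = j
  · subst hij
    have hxy : x ≠ y := fun h => hne (by rw [h])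
    have e0 : bose h (x, i) (y, i) = ((x + y) * h, i + 1) := by simp [bose]
    have e1 : x - (x + y) * h = (x - y) * h := by linear_combination (-x) * hh
    have e2 : y - (x + y) * h = -((x - y) * h) := by linear_combination (-y) * hh
    have hd : (x - y) * h ≠ 0 := by
      intro h0
      apply hxy
      linear_combination 2 * h0 - (x - y) * hh
    have hi : i ≠ i + 1 := by fin_cases i <;> decide
    rw [e0, vec_inner, vec_inner, vec_inner, if_pos rfl, if_neg hi, if_pos rfl, if_neg hi,
      if_pos rfl, e1, e2, ee_neg_im]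
    have h1 := hneg _ _ _ hd (hc (x - y)) rfl
    rw [← hη]
    linarith
  · by_cases hj : j = i + 1
    · subst hj
      by_cases hxy : x = y
      · subst hxy
        have e0 : bose h (x, i) (x, i + 1) = (x, i + 2) := by
          simp [bose]
        have i1 : i + 1 ≠ i + 2 := by fin_cases i <;> decide
        have i2 : i + 2 = i + 1 + 1 := by fin_cases i <;> decide
        have i3 : i ≠ i + 2 := by fin_cases i <;> decide
        have i4 : i + 2 ≠ i + 1 := by fin_cases i <;> decide
        rw [e0, vec_inner, vec_inner, vec_inner, if_neg hij, if_pos rfl, if_neg i1, if_pos i2,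
          if_neg i3, if_neg i4, sub_self, ee_zero, Complex.one_im, ← hη]
        have : 0 < η ^ 3 := by positivity
        nlinarith
      · have e0 : bose h (x, i) (y, i + 1) = (2 * y - x, i) := by
          simp [bose, hxy]
        have i1 : i + 1 ≠ i := by fin_cases i <;> decide
        have i2 : i ≠ i + 1 + 1 := by fin_cases i <;> decide
        have e1 : y - (2 * y - x) = x - y := by ring
        have hd : x - y ≠ 0 := sub_ne_zero.2 hxy
        rw [e0, vec_inner, vec_inner, vec_inner, if_neg hij, if_pos rfl, if_neg i1, if_neg i2,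
          if_pos rfl, e1]
        have h1 := hneg _ _ _ hd (hc (x - (2 * y - x))) rfl
        rw [← hη]
        linarith
    · have hi : i = j + 1 := by
        revert hij hj
        fin_cases i <;> fin_cases j <;> decide
      subst hi
      by_cases hxy : x = y
      · subst hxy
        have e0 : bose h (x, j + 1) (x, j) = (x, j + 2) := by
          simp [bose, hij, hj]
        have i1 : j ≠ j + 2 := by fin_cases j <;> decide
        have i2 : j + 2 ≠ j + 1 := by fin_cases j <;> decide
        have i3 : j + 1 ≠ j + 2 := by fin_cases j <;> decide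
        have i4 : j + 2 = j + 1 + 1 := by fin_cases j <;> decide
        rw [e0, vec_inner, vec_inner, vec_inner, if_neg hij, if_neg hj, if_neg i1, if_neg i2,
          if_neg i3, if_pos i4, sub_self, ee_zero, Complex.one_im, ← hη]
        have : 0 < η ^ 3 := by positivity
        nlinarith
      · have e0 : bose h (x, j + 1) (y, j) = (2 * x - y, j) := by
          simp [bose, hij, hj, hxy]
        have e1 : x - (2 * x - y) = -(x - y) := by ring
        have hd : x - y ≠ 0 := sub_ne_zero.2 hxy
        rw [e0, vec_inner, vec_inner, vec_inner, if_neg hij, if_neg hj, if_pos rfl, if_neg hij,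
          if_neg hj, e1, ee_neg_im]
        have h1 := hneg _ _ _ hd (hc (y - (2 * x - y))) rfl
        rw [← hη]
        linarith

end Pool.Agent.R117.MSR
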